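import Pool.Agent.Lib.GEY.Flat
import Pool.Agent.Lib.GEX.VFun

/-!
# GEY.VFun2: the functions of a vertical cut, with the explicit flat function

The same as `GEX.VFun` with `h = hh (-I) η (top R xm)`.
-/

open Set MeasureTheory Filter Topology
open Complex (I)
open Pool.Agent.Lib.GEX

namespace Pool.Agent.Lib.GEY

namespace VFunAux

/-- common bound of four functions -/
private lemma bdd4 {R : Rect} {f1 f2 f3 f4 : ℂ → ℂ} (h1 : AR R f1) (h2 : AR R f2) (h3 : AR R f3)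
    (h4 : AR R f4) : ∃ T : ℝ, 1 ≤ T ∧ ∀ z ∈ R.S, ‖f1 z‖ ≤ T ∧ ‖f2 z‖ ≤ T ∧ ‖f3 z‖ ≤ T ∧ ‖f4 z‖ ≤ T := by
  obtain ⟨M1, m1, b1⟩ := h1.bdd
  obtain ⟨M2, m2, b2⟩ := h2.bdd
  obtain ⟨M3, m3, b3⟩ := h3.bdd
  obtain ⟨M4, m4, b4⟩ := h4.bdd
  refine ⟨1 + M1 + M2 + M3 + M4, by linarith, fun z hz => ⟨?_, ?_, ?_, ?_⟩⟩
  · linarith [b1 z hz]
  · linarith [b2 z hz]
  · linarith [b3 z hz]
  · linarith [b4 z hz]

/-- the estimates at a point -/
private lemma point {ga gb qa qb v P0 : ℂ} {T T' e1 e2 ε : ℝ} (hT : 1 ≤ T) (hT' : 1 ≤ T')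
    (hε : 0 < ε) (hε1 : ε ≤ 1) (he2 : e2 = ε / (40 * T ^ 2)) (he1 : e1 = e2 / T')
    (bv : ‖v‖ ≤ T) (bb : ‖gb‖ ≤ T) (b0 : ‖P0‖ ≤ 2) (b1 : ‖1 - P0‖ ≤ 2)
    (bqb : 1 + ‖gb * qb‖ ≤ T') (bqa : 1 + ‖ga * qa‖ ≤ T') {E P : ℂ}
    (hE : E = 1 - gb * qb * P0 - ga * qa * (1 - P0)) (hP : P = gb * (qb * P0 + v * E)) :
    (‖gb * qb - 1‖ ≤ e2 → ‖1 - P0‖ ≤ e1 → ‖P‖ ≤ 3 ∧ ‖1 - P‖ ≤ ε) ∧
    (‖gb * qb - 1‖ ≤ e2 → ‖ga * qa - 1‖ ≤ e2 → ‖P‖ ≤ 3) ∧
    (‖ga * qa - 1‖ ≤ e2 → ‖P0‖ ≤ e1 → ‖P‖ ≤ 3 ∧ ‖P‖ ≤ ε) := by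
  have hTp : 0 < T := by linarith
  have hT'p : 0 < T' := by linarith
  have hT2 : 1 ≤ T ^ 2 := by nlinarith
  have e2p : 0 < e2 := by rw [he2]; positivity
  have key : T ^ 2 * e2 = ε / 40 := by rw [he2]; field_simp
  have e2le : e2 ≤ ε / 40 := by nlinarith
  have e1p : 0 < e1 := by rw [he1]; positivity
  have e1T : T' * e1 = e2 := by rw [he1]; field_simp
  have e1le : e1 ≤ e2 := by nlinarith
  have hEsp : E = P0 * (1 - gb * qb) + (1 - P0) * (1 - ga * qa) := by rw [hE]; ring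
  have hE1 : ‖E‖ ≤ ‖P0‖ * ‖gb * qb - 1‖ + ‖1 - P0‖ * ‖ga * qa - 1‖ := by
    rw [hEsp]
    refine (norm_add_le _ _).trans ?_
    rw [norm_mul, norm_mul, norm_sub_rev 1 (gb * qb), norm_sub_rev 1 (ga * qa)]
  have hqb1 : ‖gb * qb - 1‖ ≤ T' := by
    refine (norm_sub_le _ _).trans ?_
    rw [norm_one]; linarith
  have hqa1 : ‖ga * qa - 1‖ ≤ T' := by
    refine (norm_sub_le _ _).trans ?_
    rw [norm_one]; linarith
  have n1 := norm_nonneg (gb * qb - 1)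
  have n2 := norm_nonneg (ga * qa - 1)
  have n3 := norm_nonneg P0
  have n4 := norm_nonneg (1 - P0)
  have n5 := norm_nonneg E
  have hvg : ‖v * gb‖ ≤ T ^ 2 := by
    rw [norm_mul, sq]
    exact mul_le_mul bv bb (norm_nonneg _) hTp.le
  have hvgE : ∀ x : ℝ, ‖E‖ ≤ x → ‖v * gb * E‖ ≤ T ^ 2 * x := by
    intro x hx
    rw [norm_mul]
    exact mul_le_mul hvg hx (norm_nonneg _) (by positivity)
  -- the difference `P - P0`
  have hdiff : ‖gb * qb - 1‖ ≤ e2 → ‖E‖ ≤ 4 * e2 → ‖P - P0‖ ≤ ε / 4 := by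
    intro h1 h2
    have : P - P0 = P0 * (gb * qb - 1) + v * gb * E := by rw [hP]; ring
    rw [this]
    refine (norm_add_le _ _).trans ?_
    have h3 : ‖P0 * (gb * qb - 1)‖ ≤ 2 * e2 := by
      rw [norm_mul]
      exact mul_le_mul b0 h1 n1 (by norm_num)
    have h4 := hvgE _ h2
    have : T ^ 2 * (4 * e2) = 4 * (T ^ 2 * e2) := by ring
    rw [this, key] at h4
    linarith
  have hPle : ‖P - P0‖ ≤ ε / 4 → ‖P‖ ≤ 3 := by
    intro h
    have : P = (P - P0) + P0 := by ring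
    rw [this]
    refine (norm_add_le _ _).trans ?_
    linarith
  refine ⟨fun h1 h2 => ?_, fun h1 h2 => ?_, fun h1 h2 => ?_⟩
  · have hE3 : ‖E‖ ≤ 4 * e2 := by
      have a1 : ‖P0‖ * ‖gb * qb - 1‖ ≤ 2 * e2 := mul_le_mul b0 h1 n1 (by norm_num)
      have a2 : ‖1 - P0‖ * ‖ga * qa - 1‖ ≤ e1 * T' := mul_le_mul h2 hqa1 n2 e1p.le
      have a3 : e1 * T' = e2 := by rw [mul_comm]; exact e1T
      linarith
    have hd := hdiff h1 hE3
    refine ⟨hPle hd, ?_⟩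
    have : 1 - P = (1 - P0) - (P - P0) := by ring
    rw [this]
    refine (norm_sub_le _ _).trans ?_
    linarith
  · have hE3 : ‖E‖ ≤ 4 * e2 := by
      have a1 : ‖P0‖ * ‖gb * qb - 1‖ ≤ 2 * e2 := mul_le_mul b0 h1 n1 (by norm_num)
      have a2 : ‖1 - P0‖ * ‖ga * qa - 1‖ ≤ 2 * e2 := mul_le_mul b1 h2 n2 (by norm_num)
      linarith
    exact hPle (hdiff h1 hE3)
  · have hE3 : ‖E‖ ≤ 4 * e2 := by
      have a1 : ‖P0‖ * ‖gb * qb - 1‖ ≤ e1 * T' := mul_le_mul h2 hqb1 n1 e1p.le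
      have a2 : ‖1 - P0‖ * ‖ga * qa - 1‖ ≤ 2 * e2 := mul_le_mul b1 h1 n2 (by norm_num)
      have a3 : e1 * T' = e2 := by rw [mul_comm]; exact e1T
      linarith
    have hPe : ‖P‖ ≤ ε := by
      have : P = gb * qb * P0 + v * gb * E := by rw [hP]; ring
      rw [this]
      refine (norm_add_le _ _).trans ?_
      have h3 : ‖gb * qb * P0‖ ≤ T' * e1 := by
        rw [norm_mul]
        exact mul_le_mul (by linarith) h2 n3 hT'p.le
      have h4 := hvgE _ hE3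
      have : T ^ 2 * (4 * e2) = 4 * (T ^ 2 * e2) := by ring
      rw [this, key] at h4
      linarith
    exact ⟨by linarith, hPe⟩

end VFunAux

theorem vfun2 (R : Rect) {xm d : ℝ} (hd : 0 < d) (h1 : R.x0 < xm - d) (h2 : xm + d < R.x1)
    {a b : ℂ} {ha hb : ℂ → ℂ} (hA : AR R ha) (hB : AR R hb) (zA : ∀ z ∈ R.S, ha z = 0 → z = a)
    (zB : ∀ z ∈ R.S, hb z = 0 → z = b) (ha' : a.re < xm - d) (hb' : xm + d < b.re)
    {d' ε : ℝ} (hd' : 0 < d') (hε : 0 < ε) :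
    ∃ (P Ka Kb : ℂ → ℂ) (η : ℝ), 0 ≤ η ∧
      AR R (fun z => hh (-I) η (top R xm) z * P z) ∧ ContinuousOn P (R.S \ {top R xm}) ∧ DifferentiableOn ℂ P R.O ∧
      AR (R.right (xm + d) h2) Kb ∧ (∀ z ∈ (R.right (xm + d) h2).S, P z = hb z * Kb z) ∧
      AR (R.left (xm - d) h1) Ka ∧ (∀ z ∈ (R.left (xm - d) h1).S, 1 - P z = ha z * Ka z) ∧
      ∀ z ∈ Gam R (xm - d) (xm + d), z ≠ top R xm →
        ‖P z‖ ≤ 3 ∧ (z.re ≤ xm - d' → ‖1 - P z‖ ≤ ε) ∧ (xm + d' ≤ z.re → ‖P z‖ ≤ ε) := by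
  set c : ℂ := top R xm with hc
  have hcim : c.im = R.y1 := by simp [hc]
  have hcre : c.re = xm := by simp [hc]
  have hcO : c ∉ R.O := fun h => by
    have := h.2.2.2
    rw [hcim] at this
    exact lt_irrefl _ this
  have hl : R.x0 < xm + d := by linarith
  have hr : xm - d < R.x1 := by linarith
  -- normalised ε
  set ε0 : ℝ := min ε 1 with hε0
  have hε0p : 0 < ε0 := lt_min hε one_pos
  have hε01 : ε0 ≤ 1 := min_le_right _ _
  have hε0e : ε0 ≤ ε := min_le_left _ _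
  -- Bezout
  obtain ⟨u, v, hu, hv, huv⟩ := bez R hA hB (fun z hz => by
    by_contra hcon
    push Not at hcon
    have e1 := zA z hz hcon.1
    have e2 := zB z hz hcon.2
    rw [e1] at e2
    rw [e2] at ha'
    linarith)
  obtain ⟨T, hT1, hT⟩ := VFunAux.bdd4 hA hB hu hv
  set e2 : ℝ := ε0 / (40 * T ^ 2) with he2
  have hTp : 0 < T := by linarith
  have he2p : 0 < e2 := by rw [he2]; positivity
  -- approximate inverses
  obtain ⟨qb, hqb, hqb'⟩ := quo R (R.left (xm + d) hl)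
    (fun z hz => ((Rect.left_S hl h2.le) ▸ hz : z ∈ {z ∈ R.S | z.re ≤ xm + d}).1) hB
    (fun z hz h0 => by
      rw [Rect.left_S hl h2.le] at hz
      have := zB z hz.1 h0
      have h3 := hz.2
      rw [this] at h3
      linarith) he2p
  obtain ⟨qa, hqa, hqa'⟩ := quo R (R.right (xm - d) hr)
    (fun z hz => ((Rect.right_S hr h1.le) ▸ hz : z ∈ {z ∈ R.S | xm - d ≤ z.re}).1) hA
    (fun z hz h0 => by
      rw [Rect.right_S hr h1.le] at hz
      have := zA z hz.1 h0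
      have h3 := hz.2
      rw [this] at h3
      linarith) he2p
  obtain ⟨T', hT'1, hT'⟩ : ∃ T' : ℝ, 1 ≤ T' ∧ ∀ z ∈ R.S, 1 + ‖hb z * qb z‖ ≤ T' ∧
      1 + ‖ha z * qa z‖ ≤ T' := by
    obtain ⟨M1, m1, b1⟩ := (hB.mul hqb).bdd
    obtain ⟨M2, m2, b2⟩ := (hA.mul hqa).bdd
    exact ⟨1 + M1 + M2, by linarith, fun z hz => ⟨by linarith [b1 z hz], by linarith [b2 z hz]⟩⟩
  have hT'p : 0 < T' := by linarith
  set e1 : ℝ := e2 / T' with he1
  have he1p : 0 < e1 := by rw [he1]; positivity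
  have hd''p : 0 < min d' d := lt_min hd' hd
  obtain ⟨P0, hP0, hP0'⟩ := ind_apx R hd h1 h2 hd''p he1p
  -- the functions
  set E : ℂ → ℂ := fun z => 1 - hb z * qb z * P0 z - ha z * qa z * (1 - P0 z) with hE
  set P : ℂ → ℂ := fun z => hb z * (qb z * P0 z + v z * E z) with hP
  set Kb : ℂ → ℂ := fun z => qb z * P0 z + v z * E z with hKb
  set Ka : ℂ → ℂ := fun z => qa z * (1 - P0 z) + u z * E z with hKa
  have oA : ∀ {f : ℂ → ℂ}, AR R f → BB R c f := fun hf => BB.of_AR hcim hf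
  have bP1 : BB R c (fun z => 1 - P0 z) := BB.sub hcim (BB.const hcim 1) hP0
  have bE : BB R c E := by
    have t1 : BB R c (fun z => hb z * qb z * P0 z) := BB.mul (BB.mul (oA hB) (oA hqb)) hP0
    have t2 : BB R c (fun z => ha z * qa z * (1 - P0 z)) := BB.mul (BB.mul (oA hA) (oA hqa)) bP1
    exact BB.sub hcim (BB.sub hcim (BB.const hcim 1) t1) t2
  have bKb : BB R c Kb := BB.add hcim (BB.mul (oA hqb) hP0) (BB.mul (oA hv) bE)
  have bKa : BB R c Ka := BB.add hcim (BB.mul (oA hqa) bP1) (BB.mul (oA hu) bE)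
  have bP : BB R c P := BB.mul (oA hB) bKb
  obtain ⟨η, hη, hh3⟩ := BB_flat hcim hcO bP
  have hid : ∀ z ∈ R.S, 1 - P z = ha z * Ka z := by
    intro z hz
    have h3 := huv z hz
    simp only [hP, hKa, hE]
    linear_combination (1 - hb z * qb z * P0 z - ha z * qa z * (1 - P0 z)) * (-h3)
  refine ⟨P, Ka, Kb, η, hη, hh3, bP.1, bP.2.1, ?_, fun z _ => rfl, ?_, ?_, ?_⟩
  · refine ⟨bKb.1.mono fun z hz => ?_, bKb.2.1.mono (Rect.right_O_sub h2 (by linarith))⟩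
    rw [Rect.right_S h2 (by linarith)] at hz
    refine ⟨hz.1, fun hzc => ?_⟩
    have h3 := hz.2
    rw [mem_singleton_iff] at hzc
    rw [hzc, hcre] at h3
    linarith
  · refine ⟨bKa.1.mono fun z hz => ?_, bKa.2.1.mono (Rect.left_O_sub h1 (by linarith))⟩
    rw [Rect.left_S h1 (by linarith)] at hz
    refine ⟨hz.1, fun hzc => ?_⟩
    have h3 := hz.2
    rw [mem_singleton_iff] at hzc
    rw [hzc, hcre] at h3
    linarith
  · intro z hz
    rw [Rect.left_S h1 (by linarith)] at hz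
    exact hid z hz.1
  · intro z hz hzc
    have hzS := Gam_sub _ _ _ hz
    obtain ⟨p1, p2, p3, p4⟩ := hP0' z hz hzc
    obtain ⟨t1, t2, t3, t4⟩ := hT z hzS
    obtain ⟨s1, s2⟩ := hT' z hzS
    have main := VFunAux.point (ga := ha z) (gb := hb z) (qa := qa z) (qb := qb z)
      (v := v z) (P0 := P0 z) hT1 hT'1 hε0p hε01 he2 he1 t4 t2 p1 p2 s1 s2 (E := E z) (P := P z)
      rfl rfl
    have hL : z.re ≤ xm + d → ‖hb z * qb z - 1‖ ≤ e2 := fun hle => hqb' z (by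
      rw [Rect.left_S hl h2.le]; exact ⟨hzS, hle⟩)
    have hR : xm - d ≤ z.re → ‖ha z * qa z - 1‖ ≤ e2 := fun hle => hqa' z (by
      rw [Rect.right_S hr h1.le]; exact ⟨hzS, hle⟩)
    have m1 : min d' d ≤ d' := min_le_left _ _
    have m2 : min d' d ≤ d := min_le_right _ _
    refine ⟨?_, fun hle => ?_, fun hle => ?_⟩
    · by_cases c1 : z.re ≤ xm - min d' d
      · exact (main.1 (hL (by linarith)) (p3 c1)).1
      · by_cases c2 : xm + min d' d ≤ z.re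
        · exact (main.2.2 (hR (by linarith)) (p4 c2)).1
        · push Not at c1 c2
          exact main.2.1 (hL (by linarith)) (hR (by linarith))
    · exact (main.1 (hL (by linarith)) (p3 (by linarith))).2.trans hε0e
    · exact (main.2.2 (hR (by linarith)) (p4 (by linarith))).2.trans hε0e

end Pool.Agent.Lib.GEY
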