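import Pool.Agent.Lib.GEY.CutK
import Pool.Agent.Lib.GEY.VFun2
import Pool.Agent.Lib.GEX.Base

/-!
# GEY.Base2: a vertical cut with contact point on the top side, explicit flat function
-/

open Set MeasureTheory Filter Topology
open Complex (I)
open Pool.Agent.Lib.GEX

namespace Pool.Agent.Lib.GEY

open BaseAux in
theorem cutOK2_base {R R' R'' : Rect} {a b c : ℂ} (h : VCut R R' R'' a b c) :
    CutOK2 R R' R'' a b c (-I) := by
  obtain ⟨xm, d, hd, h1, h2, haS, hbS, ha', hb', rfl, rfl, rfl⟩ := h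
  intro ha hb H hH ε hε
  have hl : R.x0 < xm + d := by linarith
  have hr : xm - d < R.x1 := by linarith
  have hnsH : NS (Gam R (xm - d) (xm + d)) H :=
    nsH hH ha'.ne (by linarith) (by linarith) hb'.ne'
  obtain ⟨M0, hM0⟩ := hnsH.2
  set M : ℝ := max M0 1 with hMdef
  have hM1 : 1 ≤ M := le_max_right _ _
  have hMb : ∀ z ∈ Gam R (xm - d) (xm + d), ‖H z‖ ≤ M := fun z hz =>
    (hM0 z hz).trans (le_max_left _ _)
  obtain ⟨Z0, hZ0⟩ := (Rect.isCompact_S (R := R)).exists_bound_of_continuousOn
    (f := fun z : ℂ => z) continuousOn_id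
  set Z : ℝ := max Z0 1 with hZdef
  have hZ1 : 1 ≤ Z := le_max_right _ _
  have hZb : ∀ z ∈ R.S, ‖z‖ ≤ Z := fun z hz => (hZ0 z hz).trans (le_max_left _ _)
  set L : ℝ := (R.x1 - R.x0) + (R.y1 - R.y0) with hL
  have hLp : 0 < L := by
    have := R.hx
    have := R.hy
    rw [hL]; linarith
  set d' : ℝ := min d (ε / (48 * M)) with hd'
  set e : ℝ := min 1 (ε / (4 * M * Z * (4 * L))) with he
  have hMp : 0 < M := by linarith
  have hZp : 0 < Z := by linarith
  have hd'p : 0 < d' := lt_min hd (by positivity)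
  have hep : 0 < e := lt_min one_pos (by positivity)
  have hd'd : d' ≤ d := min_le_left _ _
  have he1 : e ≤ 1 := min_le_left _ _
  have hMd : M * (24 * d') ≤ ε / 2 := by
    have h3 : d' ≤ ε / (48 * M) := min_le_right _ _
    have h4 : M * (24 * d') ≤ M * (24 * (ε / (48 * M))) := by gcongr
    refine h4.trans (le_of_eq ?_)
    field_simp
    norm_num
  have hMe : Z * M * e * (4 * L) ≤ ε / 4 := by
    have h3 : e ≤ ε / (4 * M * Z * (4 * L)) := min_le_right _ _
    have h4 : Z * M * e * (4 * L) ≤ Z * M * (ε / (4 * M * Z * (4 * L))) * (4 * L) := by gcongr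
    refine h4.trans (le_of_eq ?_)
    field_simp
  obtain ⟨P, Ka, Kb, η, hη, hhP, hPc, hPd, hKb, hPKb, hKa, hPKa, hbd⟩ :=
    vfun2 R hd h1 h2 hH.arA hH.arB hH.zA hH.zB ha' hb' hd'p hep
  have hcO : top R xm ∉ R.O := fun hcon => by
    have h3 := hcon.2.2.2
    rw [top_im] at h3
    exact lt_irrefl _ h3
  have hAR : AR R (hh (-I) η (top R xm)) := hh_AR hη (HP_top (top_im R xm)) hcO
  have hz : ∀ z ∈ R.S, hh (-I) η (top R xm) z = 0 ↔ z = top R xm := fun z _ => hh_zero
  have hnsP : NS (Gam R (xm - d) (xm + d)) P := by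
    refine ⟨⟨{top R xm}, finite_singleton _, hPc.mono (sdiff_subset_sdiff_left (Gam_sub R _ _))⟩,
      max 3 ‖P (top R xm)‖, fun z hz => ?_⟩
    by_cases hzc : z = top R xm
    · rw [hzc]; exact le_max_right _ _
    · exact (hbd z hz hzc).1.trans (le_max_left _ _)
  have hnsQ : NS (Gam R (xm - d) (xm + d)) (fun z => 1 - P z) := (NS.const _ 1).sub hnsP
  have hnsHP : NS (Gam R (xm - d) (xm + d)) (fun z => H z * P z) := hnsH.mul hnsP
  have hnsHQ : NS (Gam R (xm - d) (xm + d)) (fun z => H z * (1 - P z)) := hnsH.mul hnsQ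
  -- the splitting, for an arbitrary continuous factor
  have split : ∀ F : ℂ → ℂ, ContinuousOn F R.S →
      BI R (fun z => F z * H z) =
        (BI (R.left (xm + d) hl) (fun z => F z * (H z * P z)) +
          BI (R.right (xm + d) h2) (fun z => F z * (H z * P z))) +
        (BI (R.left (xm - d) h1) (fun z => F z * (H z * (1 - P z))) +
          BI (R.right (xm - d) hr) (fun z => F z * (H z * (1 - P z)))) := by
    intro F hF
    have hnsF : NS (Gam R (xm - d) (xm + d)) F := NS.of_cont hF (Gam_sub R _ _)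
    have hX := hnsF.mul hnsHP
    have hY := hnsF.mul hnsHQ
    rw [← BI_split hl h2 (hX.mono (sub_G2 R _ _)), ← BI_split h1 hr (hY.mono (sub_G1 R _ _)),
      ← BI_add (hX.mono fun z hz => Or.inl hz) (hY.mono fun z hz => Or.inl hz)]
    refine BI_congr fun z _ => ?_
    ring
  have hSr : (R.right (xm + d) h2).S ⊆ R.S := by
    rw [Rect.right_S h2 hl.le]; exact fun z hz => hz.1
  have hSl : (R.left (xm - d) h1).S ⊆ R.S := by
    rw [Rect.left_S h1 hr.le]; exact fun z hz => hz.1
  refine ⟨P, η, hη, hhP, hok_left hH hd h1 h2 ha' hb' hAR hz hhP hPc hPd hnsHP hl,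
    hok_right hH hd h1 h2 ha' hb' hAR hz hhP hPc hPd hnsHQ hr, fun F hF => ?_, ?_, ?_⟩
  · rw [split F hF.1]
    have e1 : BI (R.right (xm + d) h2) (fun z => F z * (H z * P z)) = 0 := by
      refine BI_eq_zero (ar_prod hSr (Rect.right_O_sub h2 hl.le) hF hH.arB hH.diff hH.contb ?_
        hKb hPKb)
      rw [Rect.right_S h2 hl.le]
      rintro ⟨_, h3⟩
      have h3' : xm + d ≤ a.re := h3
      linarith
    have e2 : BI (R.left (xm - d) h1) (fun z => F z * (H z * (1 - P z))) = 0 := by
      refine BI_eq_zero (ar_prod (P := fun z => 1 - P z) hSl (Rect.left_O_sub h1 hr.le) hF hH.arA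
        hH.diff hH.conta ?_ hKa hPKa)
      rw [Rect.left_S h1 hr.le]
      rintro ⟨_, h3⟩
      have h3' : b.re ≤ xm - d := h3
      linarith
    rw [e1, e2, add_zero, zero_add]
  · refine (VI_cut hd h1 h2 hnsH hnsP hMb hd'p hd'd hep he1 hbd).trans ?_
    have h3 : M * (24 * d' + 4 * e * ((R.x1 - R.x0) + (R.y1 - R.y0))) =
        M * (24 * d') + M * e * (4 * L) := by rw [hL]; ring
    rw [h3]
    have h4 : M * e * (4 * L) ≤ Z * M * e * (4 * L) := by
      have h5 : 0 ≤ M * e * (4 * L) := by positivity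
      calc M * e * (4 * L) = 1 * (M * e * (4 * L)) := (one_mul _).symm
        _ ≤ Z * (M * e * (4 * L)) := mul_le_mul_of_nonneg_right hZ1 h5
        _ = Z * M * e * (4 * L) := by ring
    linarith
  · rw [split (fun z => (starRingEnd ℂ) z) Complex.continuous_conj.continuousOn]
    have hnsF : NS (Gam R (xm - d) (xm + d)) (fun z => (starRingEnd ℂ) z) :=
      NS.of_cont Complex.continuous_conj.continuousOn (Gam_sub R _ _)
    have hcn : ∀ z ∈ Gam R (xm - d) (xm + d), ‖(starRingEnd ℂ) z‖ ≤ Z := fun z hz => by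
      rw [RCLike.norm_conj]
      exact hZb z (Gam_sub R _ _ hz)
    have hconst : ‖((Z * M * e : ℝ) : ℂ)‖ = Z * M * e := by
      rw [Complex.norm_real, Real.norm_eq_abs, abs_of_nonneg (by positivity)]
    have b1 : ‖BI (R.right (xm + d) h2) (fun z => (starRingEnd ℂ) z * (H z * P z))‖ ≤
        2 * L * (Z * M * e) := by
      have hn := (hnsF.mul hnsHP).mono ((right_B hl h2).trans (sub_G2 R (xm - d) _))
      refine (norm_BI_le hn).trans ((VI_le hn (NS.const _ ((Z * M * e : ℝ) : ℂ))
        (finite_singleton (top R xm)) ?_).trans ?_)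
      · rintro z ⟨hzB, hzc⟩
        have hzG := sub_G2 R (xm - d) _ (right_B hl h2 hzB)
        have hzS := hzB.1
        rw [Rect.right_S h2 hl.le] at hzS
        have h3 : xm + d ≤ z.re := hzS.2
        have h4 := (hbd z hzG hzc).2.2 (by linarith)
        rw [hconst, norm_mul, norm_mul]
        calc ‖(starRingEnd ℂ) z‖ * (‖H z‖ * ‖P z‖) ≤ Z * (M * e) :=
              mul_le_mul (hcn z hzG) (mul_le_mul (hMb z hzG) h4 (norm_nonneg _) hMp.le)
                (by positivity) hZp.le
          _ = Z * M * e := by ring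
      · simp only [hconst]
        rw [VI_const]
        have h3 : ((R.right (xm + d) h2).x1 - (R.right (xm + d) h2).x0) +
            ((R.right (xm + d) h2).y1 - (R.right (xm + d) h2).y0) ≤ L := by
          simp only [Rect.right, hL]
          linarith
        have h4 : 0 ≤ Z * M * e := by positivity
        nlinarith [mul_le_mul_of_nonneg_right h3 h4]
    have b2 : ‖BI (R.left (xm - d) h1) (fun z => (starRingEnd ℂ) z * (H z * (1 - P z)))‖ ≤
        2 * L * (Z * M * e) := by
      have hn := (hnsF.mul hnsHQ).mono ((left_B h1 hr).trans (sub_G1 R _ (xm + d)))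
      refine (norm_BI_le hn).trans ((VI_le hn (NS.const _ ((Z * M * e : ℝ) : ℂ))
        (finite_singleton (top R xm)) ?_).trans ?_)
      · rintro z ⟨hzB, hzc⟩
        have hzG := sub_G1 R _ (xm + d) (left_B h1 hr hzB)
        have hzS := hzB.1
        rw [Rect.left_S h1 hr.le] at hzS
        have h3 : z.re ≤ xm - d := hzS.2
        have h4 := (hbd z hzG hzc).2.1 (by linarith)
        rw [hconst, norm_mul, norm_mul]
        calc ‖(starRingEnd ℂ) z‖ * (‖H z‖ * ‖1 - P z‖) ≤ Z * (M * e) :=
              mul_le_mul (hcn z hzG) (mul_le_mul (hMb z hzG) h4 (norm_nonneg _) hMp.le)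
                (by positivity) hZp.le
          _ = Z * M * e := by ring
      · simp only [hconst]
        rw [VI_const]
        have h3 : ((R.left (xm - d) h1).x1 - (R.left (xm - d) h1).x0) +
            ((R.left (xm - d) h1).y1 - (R.left (xm - d) h1).y0) ≤ L := by
          simp only [Rect.left, hL]
          linarith
        have h4 : 0 ≤ Z * M * e := by positivity
        nlinarith [mul_le_mul_of_nonneg_right h3 h4]
    have h5 : ∀ p q r s : ℂ, p + s - ((p + q) + (r + s)) = -(q + r) := fun p q r s => by ring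
    rw [h5, norm_neg]
    refine (norm_add_le _ _).trans ((add_le_add b1 b2).trans ?_)
    linarith

end Pool.Agent.Lib.GEY
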