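import Pool.Agent.Lib.GEY.EPoly
import Pool.Agent.Lib.GEY.Quo2

/-!
# GEY.Bk: the main approximation lemma  (2 h)

W.l.o.g. `M ≥ 1` bounds `|D|` on `R.S`. `e = Σ_{k=1}^{N} e_k s^k` from `epoly` with `ε/(2M)` (`e_0 = e(0) = 0`, `N = natDegree e`, `Σ e_k = e(1) = 1`). For `k ≥ 2` `quo2` for `g = D^(k-1)` (the same zeros as `D`) gives `q_k ∈ A(R)` with `|D^(k-1) q_k - 1| ≤ δ` on `K`.
`a_k = e_k q_k` for `k ≥ 2`, `a_1 = 1 - Σ_{k ≥ 2} e_k q_k D^(k-1)`. Then with `r_k = D^(k-1) q_k - 1`: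
`Σ_{k≥1} a_k D^k s^k = D [ s (1 - Σ_{k≥2} e_k q_k D^(k-1)) + Σ_{k≥2} e_k q_k D^(k-1) s^k ] = D [ e(s) + Σ_{k≥2} e_k r_k (s^k - s) ]` (`1 - Σ_{k≥2} e_k = e_1`). For `s = 1` the first form gives `D`. On `K`, with `|s| ≤ 2`:
`|Σ_{k≥2} e_k r_k (s^k - s)| ≤ δ Σ |e_k| 2^(k+1) ≤ ε/(2M)` if `δ` is small. (In the statement the sum is written with exponents `k + 1`, `k < N`.)
-/

open Set MeasureTheory Filter Topology
open Complex (I)
open Pool.Agent.Lib.GEX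

namespace Pool.Agent.Lib.GEY

namespace BkAux

theorem AR_pow {R : Rect} {f : ℂ → ℂ} (hf : AR R f) (n : ℕ) : AR R (fun z => f z ^ n) :=
  ⟨hf.1.pow n, hf.2.pow n⟩

theorem AR_sum {R : Rect} (f : ℕ → ℂ → ℂ) (hf : ∀ k, AR R (f k)) (n : ℕ) :
    AR R (fun z => ∑ k ∈ Finset.range n, f k z) := by
  induction n with
  | zero => simpa using AR.const (R := R) 0
  | succ n ih =>
    simp only [Finset.sum_range_succ]
    exact ih.add (hf n)

/-- the coefficients -/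
def cf (m : ℕ) (c : ℕ → ℂ) (q : ℕ → ℂ → ℂ) (D : ℂ → ℂ) : ℕ → ℂ → ℂ
  | 0 => fun z => 1 - ∑ k ∈ Finset.range m, c k * (q k z * D z ^ (k + 1))
  | (k + 1) => fun z => c k * q k z

theorem AR_cf {R : Rect} (m : ℕ) (c : ℕ → ℂ) (q : ℕ → ℂ → ℂ) (D : ℂ → ℂ)
    (hq : ∀ k, AR R (q k)) (hD : AR R D) (k : ℕ) : AR R (cf m c q D k) := by
  cases k with
  | zero =>
    exact (AR.const 1).sub (AR_sum _ (fun k => (AR.const (c k)).mul ((hq k).mul (AR_pow hD (k + 1)))) m)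
  | succ k => exact (AR.const (c k)).mul (hq k)

theorem sum_eq (m : ℕ) (c : ℕ → ℂ) (q : ℕ → ℂ → ℂ) (D : ℂ → ℂ) (z s : ℂ) :
    ∑ k ∈ Finset.range (m + 1), cf m c q D k z * (D z * s) ^ (k + 1)
      = D z * (s * (1 - ∑ k ∈ Finset.range m, c k * (q k z * D z ^ (k + 1)))
        + ∑ k ∈ Finset.range m, c k * (q k z * D z ^ (k + 1)) * s ^ (k + 2)) := by
  rw [Finset.sum_range_succ']
  simp only [cf]
  rw [mul_add, Finset.mul_sum]
  rw [add_comm]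
  congr 1
  · ring
  · refine Finset.sum_congr rfl fun k _ => ?_
    rw [mul_pow]
    ring

theorem sum_eq2 (m : ℕ) (c : ℕ → ℂ) (c1 : ℂ) (q : ℕ → ℂ → ℂ) (D : ℂ → ℂ) (z s : ℂ)
    (h1 : c1 + ∑ k ∈ Finset.range m, c k = 1) :
    ∑ k ∈ Finset.range (m + 1), cf m c q D k z * (D z * s) ^ (k + 1)
      = D z * ((c1 * s + ∑ k ∈ Finset.range m, c k * s ^ (k + 2))
        + ∑ k ∈ Finset.range m, c k * (D z ^ (k + 1) * q k z - 1) * (s ^ (k + 2) - s)) := by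
  rw [sum_eq]
  congr 1
  have e1 : ∑ k ∈ Finset.range m, c k * (D z ^ (k + 1) * q k z - 1) * (s ^ (k + 2) - s)
      = ∑ k ∈ Finset.range m, c k * (q k z * D z ^ (k + 1)) * s ^ (k + 2)
        - ∑ k ∈ Finset.range m, c k * s ^ (k + 2)
        - s * (∑ k ∈ Finset.range m, c k * (q k z * D z ^ (k + 1)))
        + s * ∑ k ∈ Finset.range m, c k := by
    rw [Finset.mul_sum, Finset.mul_sum, ← Finset.sum_sub_distrib, ← Finset.sum_sub_distrib,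
      ← Finset.sum_add_distrib]
    exact Finset.sum_congr rfl fun k _ => by ring
  rw [e1]
  have e2 : c1 = 1 - ∑ k ∈ Finset.range m, c k := by
    rw [← h1]
    ring
  rw [e2]
  ring

theorem bound (m : ℕ) (c : ℕ → ℂ) (r : ℕ → ℂ) (s : ℂ) (δ : ℝ) (hr : ∀ k, ‖r k‖ ≤ δ)
    (hs : ‖s‖ ≤ 2) : ‖∑ k ∈ Finset.range m, c k * r k * (s ^ (k + 2) - s)‖
      ≤ δ * ∑ k ∈ Finset.range m, ‖c k‖ * (2 ^ (k + 2) + 2) := by
  rw [Finset.mul_sum]
  refine (norm_sum_le _ _).trans (Finset.sum_le_sum fun k _ => ?_)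
  rw [norm_mul, norm_mul]
  have h1 : ‖s ^ (k + 2) - s‖ ≤ 2 ^ (k + 2) + 2 := by
    refine (norm_sub_le _ _).trans (add_le_add ?_ hs)
    rw [norm_pow]
    exact pow_le_pow_left₀ (norm_nonneg _) hs _
  have h2 : ‖c k‖ * ‖r k‖ ≤ ‖c k‖ * δ := mul_le_mul_of_nonneg_left (hr k) (norm_nonneg _)
  calc ‖c k‖ * ‖r k‖ * ‖s ^ (k + 2) - s‖ ≤ ‖c k‖ * δ * (2 ^ (k + 2) + 2) :=
        mul_le_mul h2 h1 (norm_nonneg _) (mul_nonneg (norm_nonneg _) ((norm_nonneg _).trans (hr k)))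
    _ = δ * (‖c k‖ * (2 ^ (k + 2) + 2)) := by ring

end BkAux

open BkAux in
theorem bk_lemma (R : Rect) {K : Set ℂ} (hK : IsCompact K) (hKS : K ⊆ R.S) {D : ℂ → ℂ}
    (hD : AR R D) (hz : ∀ z ∈ R.S, D z = 0 → z ∉ K ∧ Peak R z) {ε : ℝ} (hε : 0 < ε) :
    ∃ (N : ℕ) (a : ℕ → ℂ → ℂ), (∀ k, AR R (a k)) ∧
      (∀ z ∈ R.S, ∑ k ∈ Finset.range N, a k z * (D z) ^ (k + 1) = D z) ∧
      (∀ z ∈ K, ∀ s : ℂ, ‖s‖ ≤ 1 / 4 →
        ‖∑ k ∈ Finset.range N, a k z * (D z * s) ^ (k + 1)‖ ≤ ε) ∧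
      ∀ z ∈ K, ∀ s : ℂ, ‖s - 1‖ ≤ 1 / 4 →
        ‖∑ k ∈ Finset.range N, a k z * (D z * s) ^ (k + 1) - D z‖ ≤ ε := by
  obtain ⟨M0, hM0, hM0b⟩ := hD.bdd
  set M : ℝ := M0 + 1 with hM
  have hMpos : 0 < M := by linarith
  have hMb : ∀ z ∈ R.S, ‖D z‖ ≤ M := fun z hz' => (hM0b z hz').trans (by linarith)
  obtain ⟨e, he0, he1, hes, het⟩ := epoly (ε := ε / (2 * M)) (by positivity)
  set m := e.natDegree with hm
  set c : ℕ → ℂ := fun k => e.coeff (k + 2) with hc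
  have heval : ∀ s : ℂ, e.eval s = e.coeff 1 * s + ∑ k ∈ Finset.range m, c k * s ^ (k + 2) := by
    intro s
    rw [Polynomial.eval_eq_sum_range' (show e.natDegree < m + 2 by omega),
      Finset.sum_range_succ', Finset.sum_range_succ']
    have h0 : e.coeff 0 = 0 := by rw [Polynomial.coeff_zero_eq_eval_zero, he0]
    simp only [h0, zero_mul, add_zero, zero_add, pow_one, hc]
    rw [add_comm]
  have h1 : e.coeff 1 + ∑ k ∈ Finset.range m, c k = 1 := by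
    have := heval 1
    rw [he1] at this
    simpa using this.symm
  set C : ℝ := ∑ k ∈ Finset.range m, ‖c k‖ * (2 ^ (k + 2) + 2) with hC
  have hC0 : 0 ≤ C := Finset.sum_nonneg fun k _ => by positivity
  set δ : ℝ := ε / (2 * M * (C + 1)) with hδ
  have hδpos : 0 < δ := by positivity
  have hq : ∀ k : ℕ, ∃ q : ℂ → ℂ, AR R q ∧ ∀ z ∈ K, ‖D z ^ (k + 1) * q z - 1‖ ≤ δ := by
    intro k
    exact quo2 R hK hKS (g := fun z => D z ^ (k + 1)) (AR_pow hD _)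
      (fun z hzS h0 => hz z hzS (pow_eq_zero_iff (Nat.succ_ne_zero k) |>.1 h0)) hδpos
  choose q hqA hqb using hq
  have hmain : ∀ z ∈ K, ∀ s : ℂ, ‖s‖ ≤ 2 →
      ‖∑ k ∈ Finset.range m, c k * (D z ^ (k + 1) * q k z - 1) * (s ^ (k + 2) - s)‖
        ≤ ε / (2 * M) := by
    intro z hzK s hs
    refine (bound m c (fun k => D z ^ (k + 1) * q k z - 1) s δ (fun k => hqb k z hzK) hs).trans ?_
    rw [← hC, hδ, div_mul_eq_mul_div, div_le_div_iff₀ (by positivity) (by positivity)]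
    nlinarith [mul_pos hε hMpos]
  refine ⟨m + 1, cf m c q D, AR_cf m c q D hqA hD, ?_, ?_, ?_⟩
  · intro z _
    have := sum_eq m c q D z 1
    simp only [mul_one, one_mul, one_pow] at this
    rw [this, sub_add_cancel, mul_one]
  · intro z hzK s hs
    rw [sum_eq2 m c (e.coeff 1) q D z s h1, ← heval, norm_mul]
    have h2 : ‖s‖ ≤ 2 := hs.trans (by norm_num)
    have h3 : ‖e.eval s + ∑ k ∈ Finset.range m, c k * (D z ^ (k + 1) * q k z - 1) *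
        (s ^ (k + 2) - s)‖ ≤ ε / (2 * M) + ε / (2 * M) :=
      (norm_add_le _ _).trans (add_le_add (hes s hs) (hmain z hzK s h2))
    calc _ ≤ M * (ε / (2 * M) + ε / (2 * M)) :=
          mul_le_mul (hMb z (hKS hzK)) h3 (norm_nonneg _) hMpos.le
      _ = ε := by field_simp; ring
  · intro z hzK s hs
    have h2 : ‖s‖ ≤ 2 := by
      have : ‖s‖ ≤ ‖s - 1‖ + ‖(1 : ℂ)‖ := by
        simpa using norm_add_le (s - 1) 1
      rw [norm_one] at this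
      linarith
    have h4 : ∑ k ∈ Finset.range (m + 1), cf m c q D k z * (D z * s) ^ (k + 1) - D z
        = D z * ((e.eval s - 1) + ∑ k ∈ Finset.range m, c k * (D z ^ (k + 1) * q k z - 1) *
          (s ^ (k + 2) - s)) := by
      rw [sum_eq2 m c (e.coeff 1) q D z s h1, ← heval]
      ring
    rw [h4, norm_mul]
    have h3 : ‖(e.eval s - 1) + ∑ k ∈ Finset.range m, c k * (D z ^ (k + 1) * q k z - 1) *
        (s ^ (k + 2) - s)‖ ≤ ε / (2 * M) + ε / (2 * M) :=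
      (norm_add_le _ _).trans (add_le_add (het s hs) (hmain z hzK s h2))
    calc _ ≤ M * (ε / (2 * M) + ε / (2 * M)) :=
          mul_le_mul (hMb z (hKS hzK)) h3 (norm_nonneg _) hMpos.le
      _ = ε := by field_simp; ring

end Pool.Agent.Lib.GEY
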