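import Pool.Agent.Lib.GEY.CutK
import Pool.Agent.Lib.GEX.Rot

/-!
# GEY.Rot2: rotation by `i`, explicit flat function
-/

open Set MeasureTheory Filter Topology
open Complex (I)
open Pool.Agent.Lib.GEX

namespace Pool.Agent.Lib.GEY

lemma hh_rot (κ : ℂ) (η : ℝ) (c z : ℂ) : hh (I * κ) η (I * c) (I * z) = I * hh κ η c z := by
  unfold hh
  have h1 : I * z - I * c = I * (z - c) := by ring
  rw [h1, mul_div_mul_left _ _ Complex.I_ne_zero]
  ring

lemma hok_smul {R : Rect} {a b w w' : ℂ} {ha hb H : ℂ → ℂ} (h : HOK R a b ha hb H) (hw : w ≠ 0)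
    (hw' : w' ≠ 0) : HOK R a b (fun z => w * ha z) (fun z => w' * hb z) H where
  a_mem := h.a_mem
  b_mem := h.b_mem
  ne := h.ne
  arA := (AR.const w).mul h.arA
  arB := (AR.const w').mul h.arB
  zA := fun z hz h0 => h.zA z hz ((mul_eq_zero.1 h0).resolve_left hw)
  zB := fun z hz h0 => h.zB z hz ((mul_eq_zero.1 h0).resolve_left hw')
  cont := h.cont
  diff := h.diff
  conta := by
    have h1 := (continuousOn_const (c := w)).mul h.conta
    refine h1.congr fun z _ => ?_
    show w * ha z * H z = w * (ha z * H z)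
    ring
  contb := by
    have h1 := (continuousOn_const (c := w')).mul h.contb
    refine h1.congr fun z _ => ?_
    show w' * hb z * H z = w' * (hb z * H z)
    ring
  bdd := h.bdd

open RotAux in
theorem cutOK2_rot {R R' R'' : Rect} {a b c κ : ℂ} (h : CutOK2 R R' R'' a b c κ) :
    CutOK2 R.rot R'.rot R''.rot (I * a) (I * b) (I * c) (I * κ) := by
  intro ha hb H hok ε hε
  obtain ⟨P, η, hη, hg3, hg4, hg5, hg6, hg7, hg8⟩ :=
    h (fun z => ha (I * z)) (fun z => hb (I * z)) (fun z => H (I * z)) (hok1 hok) ε hε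
  have e0 : ∀ z, hh (I * κ) η (I * c) z = I * hh κ η c (-I * z) := by
    intro z
    rw [← hh_rot, m1]
  have e1 : hh (I * κ) η (I * c) = fun z => I * hh κ η c (-I * z) := by
    funext z; exact e0 z
  refine ⟨fun z => P (-I * z), η, hη, ?_, ?_, ?_, ?_, ?_, ?_⟩
  · have h1 := (AR.const (R := R.rot) I).mul (ar2 hg3)
    refine h1.congr fun z _ => ?_
    show hh (I * κ) η (I * c) z * P (-I * z) = I * (hh κ η c (-I * z) * P (-I * z))
    rw [e0]; ring
  · have h1 := hok2 hg4
    simp only [m1] at h1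
    have h2 := hok_smul h1 one_ne_zero Complex.I_ne_zero
    simp only [one_mul] at h2
    rw [e1]
    exact h2
  · have h1 := hok2 hg5
    simp only [m1] at h1
    have h2 := hok_smul h1 Complex.I_ne_zero one_ne_zero
    simp only [one_mul] at h2
    rw [e1]
    exact h2
  · intro F hF
    have h1 := hg6 (fun z => F (I * z)) (ar1 hF)
    rw [BI_rot, BI_rot, BI_rot, ← h1]
    simp only [m2]
    ring
  · rw [VI_rot, VI_rot, VI_rot]
    simp only [m2]
    exact hg7
  · rw [conj_rot R' (fun z => H z * P (-I * z)), conj_rot R'' (fun z => H z * (1 - P (-I * z))),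
      conj_rot R H]
    simp only [m2]
    exact hg8

end Pool.Agent.Lib.GEY
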