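import Pool.Agent.Lib.GEY.CutK

/-!
# GEY.Swap2: interchanging the two sides, explicit flat function
-/

open Set MeasureTheory Filter Topology
open Complex (I)
open Pool.Agent.Lib.GEX

namespace Pool.Agent.Lib.GEY

private theorem hok_symm {R : Rect} {a b : ℂ} {ha hb H : ℂ → ℂ} (h : HOK R a b ha hb H) :
    HOK R b a hb ha H where
  a_mem := h.b_mem
  b_mem := h.a_mem
  ne := h.ne.symm
  arA := h.arB
  arB := h.arA
  zA := h.zB
  zB := h.zA
  cont := by rw [Set.pair_comm]; exact h.cont
  diff := h.diff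
  conta := h.contb
  contb := h.conta
  bdd := h.bdd

theorem cutOK2_swap {R R' R'' : Rect} {a b c κ : ℂ} (hp : HP R c κ) (hO : c ∉ R.O)
    (h : CutOK2 R R' R'' a b c κ) : CutOK2 R R'' R' b a c κ := by
  intro ha hb H hH ε hε
  obtain ⟨P, η, hη, hkP, h1, h2, h3, h4, h5⟩ := h hb ha H (hok_symm hH) ε hε
  have hk : AR R (hh κ η c) := hh_AR hη hp hO
  have e1 : (fun z => H z * (1 - (1 - P z))) = fun z => H z * P z := by
    funext z; ring
  refine ⟨fun z => 1 - P z, η, hη, ?_, hok_symm h2, ?_, fun F hF => ?_, ?_, ?_⟩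
  · exact (hk.sub hkP).congr fun z _ => by ring
  · rw [e1]
    exact hok_symm h1
  · have e2 : (fun z => F z * (H z * (1 - (1 - P z)))) = fun z => F z * (H z * P z) := by
      funext z; ring
    rw [e2, add_comm]
    exact h3 F hF
  · have e2 : (fun z => ‖H z * (1 - (1 - P z))‖) = fun z => ‖H z * P z‖ := by
      funext z; congr 1; ring
    rw [e2, add_comm]
    exact h4
  · have e2 : (fun z => (starRingEnd ℂ) z * (H z * (1 - (1 - P z)))) =
        fun z => (starRingEnd ℂ) z * (H z * P z) := by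
      funext z; ring
    rw [e2, add_comm (BI R'' _)]
    exact h5

end Pool.Agent.Lib.GEY
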