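import Pool.Agent.Lib.GEY.Base2
import Pool.Agent.Lib.GEY.Rot2
import Pool.Agent.Lib.GEY.Swap2

/-!
# GEY.CutAll2: every cut is good

`CutK.hp`: `R` lies in the half plane at the contact point, and the contact point is on the boundary.
-/

open Set
open Complex (I)
open Pool.Agent.Lib.GEX

namespace Pool.Agent.Lib.GEY

lemma HP_rot {R : Rect} {c κ : ℂ} (h : HP R c κ) : HP R.rot (I * c) (I * κ) := by
  intro z hz
  have h1 : -I * z ∈ R.S := (RotAux.memS' R z).2 hz
  have h2 := h _ h1
  have h3 : z - I * c = I * (-I * z - c) := by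
    linear_combination z * Complex.I_mul_I
  rw [h3, mul_div_mul_left _ _ Complex.I_ne_zero]
  exact h2

theorem CutK.hp {R R' R'' : Rect} {a b c κ : ℂ} (h : CutK R R' R'' a b c κ) :
    HP R c κ ∧ c ∈ R.B := by
  induction h with
  | base h =>
    obtain ⟨xm, d, hd, h1, h2, haS, hbS, ha', hb', rfl, rfl, rfl⟩ := h
    refine ⟨HP_top (by simp), ⟨⟨?_, ?_, ?_, ?_⟩, fun h3 => ?_⟩⟩
    · simp; linarith
    · simp; linarith
    · simpa using Rect.hy _ |>.le
    · simp
    · have := h3.2.2.2
      simp at this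
  | rot _ ih => exact ⟨HP_rot ih.1, (RotAux.memB _ _).2 ih.2⟩
  | swap _ ih => exact ih

theorem cutOK2 {R R' R'' : Rect} {a b c κ : ℂ} (h : CutK R R' R'' a b c κ) :
    CutOK2 R R' R'' a b c κ := by
  induction h with
  | base h => exact cutOK2_base h
  | rot _ ih => exact cutOK2_rot ih
  | swap h ih => exact cutOK2_swap h.hp.1 h.hp.2.2 ih

end Pool.Agent.Lib.GEY
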