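import Pool.Agent.Lib.GEY.Flat

/-!
# GEY.CutK: cuts with the direction of the contact point

`CutK R R' R'' a b c κ`: a cut (`GEX.Cut`) for which `κ` is the direction at the contact point (`-I` for the top side).
`CutOK2`: the properties of a cut, with the explicit flat function `hh κ η c`.
-/

open Set MeasureTheory Filter Topology
open Complex (I)
open Pool.Agent.Lib.GEX

namespace Pool.Agent.Lib.GEY

/-- a cut with the direction `κ` at the contact point -/
inductive CutK : Rect → Rect → Rect → ℂ → ℂ → ℂ → ℂ → Prop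
  | base {R R' R'' : Rect} {a b c : ℂ} : VCut R R' R'' a b c → CutK R R' R'' a b c (-I)
  | rot {R R' R'' : Rect} {a b c κ : ℂ} : CutK R R' R'' a b c κ →
      CutK R.rot R'.rot R''.rot (I * a) (I * b) (I * c) (I * κ)
  | swap {R R' R'' : Rect} {a b c κ : ℂ} : CutK R R' R'' a b c κ → CutK R R'' R' b a c κ

theorem CutK.toCut {R R' R'' : Rect} {a b c κ : ℂ} (h : CutK R R' R'' a b c κ) :
    Cut R R' R'' a b c := by
  induction h with
  | base h => exact Cut.base h
  | rot _ ih => exact Cut.rot ih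
  | swap _ ih => exact Cut.swap ih

/-- what is needed at a cut -/
def CutOK2 (R R' R'' : Rect) (a b c κ : ℂ) : Prop :=
  ∀ ha hb H : ℂ → ℂ, HOK R a b ha hb H → ∀ ε : ℝ, 0 < ε →
    ∃ (P : ℂ → ℂ) (η : ℝ), 0 ≤ η ∧ AR R (fun z => hh κ η c z * P z) ∧
      HOK R' a c ha (hh κ η c) (fun z => H z * P z) ∧
      HOK R'' c b (hh κ η c) hb (fun z => H z * (1 - P z)) ∧
      (∀ F : ℂ → ℂ, AR R F →
        BI R' (fun z => F z * (H z * P z)) + BI R'' (fun z => F z * (H z * (1 - P z))) =
          BI R (fun z => F z * H z)) ∧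
      VI R' (fun z => ‖H z * P z‖) + VI R'' (fun z => ‖H z * (1 - P z)‖) ≤
        VI R (fun z => ‖H z‖) + ε ∧
      ‖BI R' (fun z => (starRingEnd ℂ) z * (H z * P z)) +
          BI R'' (fun z => (starRingEnd ℂ) z * (H z * (1 - P z))) -
          BI R (fun z => (starRingEnd ℂ) z * H z)‖ ≤ ε

end Pool.Agent.Lib.GEY
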