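import Pool.Agent.Lib.GEX.DefsB

/-!
# GEY.Flat: the explicit flat functions

`hh κ η c z = (z - c) exp (-η κ/(z - c))`. `HP R c κ`: `R` lies in the half plane `Re (κ/(z - c)) ≥ 0`.
-/

open Set MeasureTheory Filter Topology
open Complex (I)
open Pool.Agent.Lib.GEX

namespace Pool.Agent.Lib.GEY

/-- the flat function at `c` with direction `κ` -/
noncomputable def hh (κ : ℂ) (η : ℝ) (c z : ℂ) : ℂ :=
  (z - c) * Complex.exp (-(η : ℂ) * (κ / (z - c)))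

/-- `R` is contained in the half plane `Re (κ/(z - c)) ≥ 0` -/
def HP (R : Rect) (c κ : ℂ) : Prop := ∀ z ∈ R.S, 0 ≤ (κ / (z - c)).re

lemma HP.mono {R R' : Rect} {c κ : ℂ} (h : HP R c κ) (hS : R'.S ⊆ R.S) : HP R' c κ :=
  fun z hz => h z (hS hz)

lemma HP_top {R : Rect} {c : ℂ} (hc : c.im = R.y1) : HP R c (-I) :=
  fun _ hz => ze_re_nonneg hc hz

lemma hh_zero {κ : ℂ} {η : ℝ} {c z : ℂ} : hh κ η c z = 0 ↔ z = c := by
  unfold hh
  constructor
  · intro h0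
    rcases mul_eq_zero.1 h0 with h1 | h1
    · exact sub_eq_zero.1 h1
    · exact absurd h1 (Complex.exp_ne_zero _)
  · rintro rfl; simp

lemma hh_norm (κ : ℂ) (η : ℝ) (c z : ℂ) :
    ‖hh κ η c z‖ = ‖z - c‖ * Real.exp (-(η * (κ / (z - c)).re)) := by
  unfold hh
  rw [norm_mul, Complex.norm_exp]
  congr 2
  simp

lemma hh_le {R : Rect} {κ : ℂ} {η : ℝ} {c : ℂ} (hη : 0 ≤ η) (hp : HP R c κ) :
    ∀ z ∈ R.S, ‖hh κ η c z‖ ≤ ‖z - c‖ := by
  intro z hz
  rw [hh_norm]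
  refine mul_le_of_le_one_right (norm_nonneg _) (Real.exp_le_one_iff.2 ?_)
  exact neg_nonpos.2 (mul_nonneg hη (hp z hz))

lemma hh_diff (κ : ℂ) (η : ℝ) (c : ℂ) : DifferentiableOn ℂ (hh κ η c) {c}ᶜ := by
  intro z hz
  unfold hh
  have : z - c ≠ 0 := sub_ne_zero.2 hz
  fun_prop (disch := exact this)

lemma contWithin_of_bound {s : Set ℂ} {c : ℂ} {g : ℂ → ℂ} (hg : g c = 0)
    (hM : ∃ M : ℝ, ∀ z ∈ s, ‖g z‖ ≤ M * ‖z - c‖) : ContinuousWithinAt g s c := by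
  obtain ⟨M, hM⟩ := hM
  unfold ContinuousWithinAt
  rw [hg, tendsto_zero_iff_norm_tendsto_zero]
  refine squeeze_zero' (Eventually.of_forall fun z => norm_nonneg _)
    (eventually_nhdsWithin_of_forall hM) ?_
  have : Tendsto (fun z : ℂ => M * ‖z - c‖) (𝓝 c) (𝓝 (M * ‖c - c‖)) := by
    exact (Continuous.tendsto (by fun_prop) c)
  simpa using this.mono_left nhdsWithin_le_nhds

lemma contOn_of_bound {s : Set ℂ} {c : ℂ} {g : ℂ → ℂ} (h1 : ContinuousOn g (s \ {c}))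
    (hg : g c = 0) (hM : ∃ M : ℝ, ∀ z ∈ s, ‖g z‖ ≤ M * ‖z - c‖) : ContinuousOn g s := by
  intro z hz
  by_cases hzc : z = c
  · rw [hzc]; exact contWithin_of_bound hg hM
  · have := h1 z ⟨hz, hzc⟩
    refine (this.mono_of_mem_nhdsWithin ?_)
    exact Filter.inter_mem self_mem_nhdsWithin
      (mem_nhdsWithin_of_mem_nhds (isOpen_compl_singleton.mem_nhds hzc))

/-- the flat function is in the algebra of every rectangle in the half plane -/
theorem hh_AR {R : Rect} {κ : ℂ} {η : ℝ} {c : ℂ} (hη : 0 ≤ η) (hp : HP R c κ) (hc : c ∉ R.O) :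
    AR R (hh κ η c) := by
  have hOc : R.O ⊆ {c}ᶜ := fun z hz h => hc (by rw [Set.mem_singleton_iff] at h; rwa [← h])
  refine ⟨contOn_of_bound ((hh_diff κ η c).continuousOn.mono fun z hz => hz.2)
    (hh_zero.2 rfl) ⟨1, fun z hz => by simpa using hh_le hη hp z hz⟩, (hh_diff κ η c).mono hOc⟩

/-- the explicit form of `BB.flat` -/
theorem BB_flat {R : Rect} {c : ℂ} {f : ℂ → ℂ} (hc : c.im = R.y1) (hcO : c ∉ R.O)
    (hf : BB R c f) : ∃ η : ℝ, 0 ≤ η ∧ AR R (fun z => hh (-I) η c z * f z) := by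
  obtain ⟨f1, f2, η, C, hη, hC, hf3⟩ := hf
  have hOc : R.O ⊆ {c}ᶜ := fun z hz h => hcO (by rw [Set.mem_singleton_iff] at h; rwa [← h])
  refine ⟨η, hη, ?_, ((hh_diff _ η c).mono hOc).mul f2⟩
  refine contOn_of_bound (((hh_diff _ η c).continuousOn.mono fun z hz => hz.2).mul f1)
    (by rw [hh_zero.2 rfl, zero_mul]) ⟨C, fun z hz => ?_⟩
  by_cases hzc : z = c
  · rw [hzc, hh_zero.2 rfl]; simp
  rw [norm_mul, hh_norm]
  have hb : ‖f z‖ ≤ C * Real.exp (η * (-I / (z - c)).re) := hf3 z hz hzc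
  calc ‖z - c‖ * Real.exp (-(η * (-I / (z - c)).re)) * ‖f z‖
      ≤ ‖z - c‖ * Real.exp (-(η * (-I / (z - c)).re)) *
          (C * Real.exp (η * (-I / (z - c)).re)) :=
        mul_le_mul_of_nonneg_left hb (by positivity)
    _ = C * ‖z - c‖ * (Real.exp (-(η * (-I / (z - c)).re)) *
          Real.exp (η * (-I / (z - c)).re)) := by ring
    _ = C * ‖z - c‖ := by rw [← Real.exp_add]; simp

end Pool.Agent.Lib.GEY
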