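import Pool.Agent.Lib.GEY.CutAll2

/-!
# GEY.QuadD: four pieces  (1.2 h)

`Quad`: `R` is cut into `R'`, `R''` (contact `c2`), then `R'` into `R1, R2` (contact `c1`) and `R''` into `R3, R4` (contact `c3`); all three contact points are on the boundary of `R`, and `R'`, `R4` resp. `R''`, `R1` are disjoint, even
separated by functions of `A(R)`.
`Quad.rot`: `CutK.rot`, `HP_rot`, `RotAux.memB`, `RotAux.memS`, and `χ z ↦ χ (-I z)` (`RotAux.ar2`). `Quad.swap`: `CutK.swap`, the two separation properties are interchanged.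
-/

open Set MeasureTheory Filter Topology
open Complex (I)
open Pool.Agent.Lib.GEX

namespace Pool.Agent.Lib.GEY

/-- a function of `A(R)` close to `1` on `A` and close to `0` on `B` -/
def SepF (R : Rect) (A B : Set ℂ) : Prop :=
  ∀ ε : ℝ, 0 < ε → ∃ χ : ℂ → ℂ, AR R χ ∧ (∀ z ∈ A, ‖1 - χ z‖ ≤ ε) ∧ ∀ z ∈ B, ‖χ z‖ ≤ ε

structure Quad (R R' R'' R1 R2 R3 R4 : Rect) (a b c1 c2 c3 κ1 κ2 κ3 : ℂ) : Prop where
  cut0 : CutK R R' R'' a b c2 κ2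
  cut1 : CutK R' R1 R2 a c2 c1 κ1
  cut2 : CutK R'' R3 R4 c2 b c3 κ3
  hp1 : HP R c1 κ1
  hp3 : HP R c3 κ3
  b1 : c1 ∈ R.B
  b3 : c3 ∈ R.B
  c1n : c1 ∉ R''.S
  c3n : c3 ∉ R'.S
  sepA : SepF R R'.S R4.S
  sepB : SepF R R''.S R1.S

variable {R R' R'' R1 R2 R3 R4 : Rect} {a b c1 c2 c3 κ1 κ2 κ3 : ℂ}

private theorem sepF_rot {R : Rect} {A B A' B' : Set ℂ} (hA : ∀ z ∈ A', -I * z ∈ A)
    (hB : ∀ z ∈ B', -I * z ∈ B) (h : SepF R A B) : SepF R.rot A' B' := by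
  intro ε hε
  obtain ⟨χ, h1, h2, h3⟩ := h ε hε
  exact ⟨fun z => χ (-I * z), RotAux.ar2 h1, fun z hz => h2 _ (hA z hz),
    fun z hz => h3 _ (hB z hz)⟩

theorem Quad.rot (h : Quad R R' R'' R1 R2 R3 R4 a b c1 c2 c3 κ1 κ2 κ3) :
    Quad R.rot R'.rot R''.rot R1.rot R2.rot R3.rot R4.rot (I * a) (I * b) (I * c1) (I * c2)
      (I * c3) (I * κ1) (I * κ2) (I * κ3) where
  cut0 := CutK.rot h.cut0
  cut1 := CutK.rot h.cut1
  cut2 := CutK.rot h.cut2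
  hp1 := HP_rot h.hp1
  hp3 := HP_rot h.hp3
  b1 := (RotAux.memB R c1).2 h.b1
  b3 := (RotAux.memB R c3).2 h.b3
  c1n := fun h1 => h.c1n ((RotAux.memS R'' c1).1 h1)
  c3n := fun h1 => h.c3n ((RotAux.memS R' c3).1 h1)
  sepA := sepF_rot (fun z hz => (RotAux.memS' R' z).2 hz) (fun z hz => (RotAux.memS' R4 z).2 hz)
    h.sepA
  sepB := sepF_rot (fun z hz => (RotAux.memS' R'' z).2 hz) (fun z hz => (RotAux.memS' R1 z).2 hz)
    h.sepB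

theorem Quad.swap (h : Quad R R' R'' R1 R2 R3 R4 a b c1 c2 c3 κ1 κ2 κ3) :
    Quad R R'' R' R4 R3 R2 R1 b a c3 c2 c1 κ3 κ2 κ1 where
  cut0 := CutK.swap h.cut0
  cut1 := CutK.swap h.cut2
  cut2 := CutK.swap h.cut1
  hp1 := h.hp3
  hp3 := h.hp1
  b1 := h.b3
  b3 := h.b1
  c1n := h.c3n
  c3n := h.c1n
  sepA := h.sepB
  sepB := h.sepA

end Pool.Agent.Lib.GEY
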